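import Pool.Agent.TH762.WD.NcLaw

/-!
# CC and NC, NL and CC, CC and P: inclusions and avoided values

We work with predicates and functions of a word over an alphabet of `m` symbols and of natural
numbers in unary. `LF` is the smallest class of functions which contains the zero function, the
successor, the projections, `(x + 1) * (y + 1)`, the length of the word and its symbols, and is
closed under composition and limited recursion (logarithmic space). `CF` is the smallest such class
which is closed under the evaluation of comparator circuits: `F (t, i, v)` is the bit on the wire `i`
before the step `t`, in which a comparator joins the wires `p (t, v)` and `q (t, v)`. `NF` is the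
smallest such class which is closed under parallel recursion: `F (t + 1, i, v)` is computed from
`F (t, p (t, i, v), v)`, `F (t, q (t, i, v), v)` and `F (t, i, v)`, and the number of steps is
`T v ^ c` with `2 ^ T v` bounded by a function of the class. `PF` is the smallest such class which
is closed under limited recursion on tableaux. Their predicates `Pd CF`, `Pd NF`, `Pd PF` are CC,
NC and P, and `NR (Pd LF)` is NL: a path leads from `0` to `1` in a graph on the numbers up to a
polynomial whose edges are in L.

Theorem: each of the four inclusions CC in NC, NC in CC, CC in NL, P in CC holds if and only if for
some constant `k` every function of a word and a number with values `0, ..., k` of the first class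
can be avoided by a function of the second class: there is a `g` with values `0, ..., k` in the
second class with `g ≠ f` everywhere. For `k = 1` this is the same as computing `f`.

Proof: the values at `k` places of a recursion are coded by a number; for any `k + 1` codes the
number of those codes which are at most the true one is a function with values `0, ..., k`, so one
of the codes is excluded. So there is a list of at most `k` candidates for the values at any `k`
places. By `MC.world` for some `d < k` there are `k - d - 1` places such that their true values
together with the value at one further place survive the extensions by `d` places in exactly one way.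
By bounded quantifiers one guesses the values at the `k - d - 1` places, and checks with the
recursion whether the values which they give are right.
-/

set_option autoImplicit false

namespace Pool.Agent.Results.MP_9a4607_lc.AvoidedGate

open Pool.Agent.TH762.WD

/-- (1) CC is contained in NC iff for some `k` the functions in CC with values `0..k` are avoided by
NC; (2) NC is contained in CC iff for some `k` the functions in NC with values `0..k` are avoided by
CC; (3) the same for CC and NL; (4) the same for P and CC. -/
theorem result (m : ℕ) :
    ((∀ (n : ℕ) (R : List (Fin m) → (Fin n → ℕ) → Prop), R ∈ Pd CF n → R ∈ Pd NF n) ↔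
      ∃ k : ℕ, Avoid (W := List (Fin m)) CF (Pd NF) k) ∧
    ((∀ (n : ℕ) (R : List (Fin m) → (Fin n → ℕ) → Prop), R ∈ Pd NF n → R ∈ Pd CF n) ↔
      ∃ k : ℕ, Avoid (W := List (Fin m)) NF (Pd CF) k) ∧
    ((∀ (n : ℕ) (R : List (Fin m) → (Fin n → ℕ) → Prop), R ∈ Pd CF n → R ∈ NR (Pd LF) n) ↔
      ∃ k : ℕ, Avoid (W := List (Fin m)) CF (NR (Pd LF)) k) ∧
    ((∀ (n : ℕ) (R : List (Fin m) → (Fin n → ℕ) → Prop), R ∈ Pd PF n → R ∈ Pd CF n) ↔
      ∃ k : ℕ, Avoid (W := List (Fin m)) PF (Pd CF) k) :=
  ⟨law_CF (clo_Pd fcl_NF) (inp_Pd fcl_NF), law_NF (clo_Pd fcl_CF) (inp_Pd fcl_CF), law_CC_NL,
    law_P_CC⟩

end Pool.Agent.Results.MP_9a4607_lc.AvoidedGate
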