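import Mathlib
import Pool.Agent.TH457.Ary.Comp

/-!
# The comparator circuit value problem: tests of several comparators

The input consists of a list of `m` comparators on `m + 3` wires and of the initial bits of the
wires; the question is the final bit of the first wire. A test sees up to `w` of these items, each
of them through an arbitrary function with `(m + 3) ^ 2` values; as there are so many comparators,
these are the arbitrary predicates of `w` items. We show lower bounds for

* random formulas with error probability at most `1 / 3` whose leaves are such tests and whose gates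
  are arbitrary functions of two bits: `m ^ 2 / (400 w (1 + (w - 1) log₂ m))` leaves,
* random branching programs with error probability at most `1 / 3` whose nodes are labelled with such
  tests: `m ^ 2 / (500 w ^ 2 log₂ m)` nodes,
* nondeterministic branching programs whose edges are labelled with such tests, for the problem and
  for its complement: `(m ^ (3 / 2) / 4 - m) / w` labelled edges, if `40 (w log₂ m) ^ 2 ≤ m`.

Proof. There are wires `s_i` with the bit one and `t_i` with the bit zero, `i < m / 2`. The `i`-th
comparator of the first half moves the one from `s_i` to `t_i`, or is idle. Each comparator of the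
second half can move the bit of `t_i` to the first wire. So it can ask for `m / 2` bits of the other
items. If `r` tests see it, then only few functions of it arise when the other items are fixed.
-/

set_option autoImplicit false

namespace Pool.Agent.Results.MP_9a4607_lc.SeveralGates

open Pool.Agent.TH697.Form (IsProb)
open Pool.Agent.TH697.Row (ApproximatesOn)
open Pool.Agent.TH457.Ary Pool.Agent.TH457.Ary.Comp

theorem result : ∀ m w : ℕ, 4096 ≤ m → 1 ≤ w →
    (∀ (Ω : Type) [Fintype Ω] (μ : Ω → ℝ), IsProb μ →
      (∀ F : Ω → Fml (Fin m ⊕ Fin (m + 3)) (Item m (m + 3)) w ((m + 3) ^ 2),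
        ApproximatesOn μ (fun ω => (F ω).eval) (fun _ => True) value →
        (m : ℝ) ^ 2 ≤ 400 * w * (1 + (w - 1) * Real.logb 2 m) * expSize μ F) ∧
      (∀ (s : ℕ) (B : Ω → Program (Fin m ⊕ Fin (m + 3)) (Item m (m + 3)) w ((m + 3) ^ 2) s),
        ApproximatesOn μ (fun ω => (B ω).eval) (fun _ => True) value →
        (m : ℝ) ^ 2 ≤ 500 * w ^ 2 * Real.logb 2 m * s)) ∧
    (∀ (s : ℕ) (B : NBP (Fin m ⊕ Fin (m + 3)) (Item m (m + 3)) w ((m + 3) ^ 2) s) (c : Bool),
      40 * (w * Real.logb 2 m) ^ 2 ≤ m → (∀ x, B.Accepts x ↔ value x = c) →
      (m : ℝ) ^ 3 ≤ 16 * (w * s + m) ^ 2) :=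
  fun _ _ hm hw => ⟨fun _ _ μ hμ => ⟨fun F hF => formula_bound (by omega) hw μ hμ F hF,
    fun s B hB => program_bound hm hw μ hμ s B hB⟩,
    fun s B c hw2 hB => nbp_bound hm hw hw2 s B c hB⟩

end Pool.Agent.Results.MP_9a4607_lc.SeveralGates
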