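import Pool.Agent.TH708.Shr.Cv

/-!
# Parallel evaluation of comparator circuits must share the initial bits

The comparator circuit value problem, complete for `CC`: there are `k + 1` wires, a list of
comparators (a comparator writes the conjunction of the bits of its two wires to the first and the
disjunction to the second one) and initial bits for the wires; the question is the final bit of the
last wire. Here the last wire starts with a one and there are at most `k` comparators. We consider
circuits (in the sense of NC, or any other) for this problem, with AND and OR gates of any fan-in
and with negations, whose leaves are the `k` initial bits, their negations, and ARBITRARY predicates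
of the list of comparators. An AND gate shares an initial bit if at least two of its inputs depend
on it (there are paths to it from two different inputs).

Theorem: if on every path from the output at most `m` initial bits are shared, then the number `s`
of nodes satisfies `k ≤ 2 ^ 26 (m + log s + 1)`. So a circuit of AND-depth `d` and size `s` has an
AND gate that shares at least `(k / 2 ^ 26 - log s - 1) / d` initial bits. In particular, if CC is
contained in NC then the circuits of polynomial size and polylogarithmic depth (size `2 ^ (o k)` is
enough) for the comparator circuit value problem have AND gates that share `k / polylog k` of the
`k` initial bits; without sharing, or with a small enough linear number of shared bits on each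
path, the size is `2 ^ (Ω k)`, whatever the depth is.

Proof: the general bound for functions which contain all conjunctions of disjunctions of disjoint
pairs of tracked bits, see `Pool.Agent.TH708.Shr.Main`. A comparator between two wires computes
their disjunction; a second comparator adds it to the conjunction on the last wire.
-/

set_option autoImplicit false

namespace Pool.Agent.Results.MP_9a4607_lc.SharedWires

open Pool.Agent.TH708.Shr Pool.Agent.TH708.Shr.Cv

/-- Let `C` be a circuit whose nodes are literals of `k` bits `y`, arbitrary predicates of lists of
comparators on `k + 1` wires, and AND and OR gates of any fan-in, such that for each list `l` of at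
most `k` comparators and all `y` the node `o` is true if and only if the last wire ends with a one,
when it starts with a one and the other wires start with the bits `y`. If at most `m` of the bits
are shared by AND gates on each path from `o` then `k ≤ 2 ^ 26 (m + log s + 1)`, for the number `s`
of nodes. If the AND-depth of `o` is `dep o` and each AND gate shares at most `μ` of the bits, then
`k ≤ 2 ^ 26 (μ dep o + log s + 1)`. -/
theorem result {k s : ℕ} (C : Net (List (Fin (k + 1) × Fin (k + 1))) k s) (o : Fin s)
    (hdec : ∀ l : List (Fin (k + 1) × Fin (k + 1)), l.length ≤ k → ∀ y : Fin k → Bool,
      (Val C l y o ↔ run l (init y) (Fin.last k) = true)) :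
    (∀ m, SharesLe C o m → k ≤ 2 ^ 26 * (m + Nat.log 2 s + 1)) ∧
    ∀ (dep : Fin s → ℕ) (μ : ℕ),
      (∀ g l, C g = Kind.and l → ∀ c ∈ l, dep c < dep g) →
      (∀ g l, C g = Kind.or l → ∀ c ∈ l, dep c ≤ dep g) →
      (∀ g, (shared C g).ncard ≤ μ) → k ≤ 2 ^ 26 * (μ * dep o + Nat.log 2 s + 1) :=
  ⟨fun m hm => Cv.lower C o hdec m hm,
    fun dep μ h1 h2 h3 => Cv.lower C o hdec _ (sharesLe_of_depth dep μ h1 h2 h3)⟩

end Pool.Agent.Results.MP_9a4607_lc.SharedWires
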