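import Pool.Agent.TH754.CV.NC

/-!
Comparator circuits of small Strahler number: polynomial-size deterministic branching programs, and
shallow circuits.
-/

set_option autoImplicit false

namespace Pool.Agent.Results.MP_9a4607_lc.StrahlerNumber

open Pool.Agent.TH754.CV

/-- Let `C` be a comparator circuit with `m` comparators, whose sources are labelled by variables,
and let `C.str t` be the Strahler number of the comparator `t` (arcs from sources have the number
`0`; a comparator with incoming numbers `p ≠ q` has the number `max p q`, one with `p = q` has the
number `p + 1`, except that the numbers `p = q > 0` are not increased by comparators one of whose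
outputs is not used).

**(1)** Every output of `t` is computed by a deterministic branching program with
`12 (8 m) ^ (C.str t)` nodes.

**(2)** It is computed by a Boolean circuit with unbounded fan-in, at most
`16384 * C.str t * m ^ 5` gates and depth at most `C.str t * (2 ⌈log₂ (8 m)⌉ + 2) + 2`.

**(3)** If `I` contains all inner comparators (those both of whose incoming arcs come from
comparators and both of whose outgoing arcs go to comparators), then it is computed by a
deterministic branching program with `96 m 9 ^ |I|` nodes.

**(4)** The Strahler number of `t` is at most one more than the number `D t`, where `D` is any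
function which does not decrease along arcs and increases at inner comparators; so it is at most
one more than the largest number of inner comparators on a directed path which ends at `t`. -/
theorem result {σ : Type} {m : ℕ} (C : Circ σ m) (t : Fin m) (e : Bool) :
    Has σ (12 * (8 * m) ^ (C.str t)) (fun x => C.val x t e) ∧
    (∃ B : Finset (Fn σ), Net (C.str t * (2 * Nat.clog 2 (8 * m) + 2) + 2) B ∧
      (fun x => C.val x t e) ∈ B ∧ B.card ≤ 16384 * C.str t * m ^ 5) ∧
    (∀ I : Finset (Fin m), (∀ s, C.Inner s → s ∈ I) →
      Has σ (96 * m * 9 ^ I.card) (fun x => C.val x t e)) ∧
    (∀ D : Fin m → ℕ, (∀ (s : Fin m) (c : Bool) (a : Fin m × Bool), C.inp s c = .inr a →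
      D a.1 ≤ D s ∧ (C.Inner s → D a.1 < D s)) → C.str t ≤ D t + 1) := by
  have hm : 1 ≤ m := by
    have := t.2
    omega
  refine ⟨has_str C t e, ?_, fun I hI => has_few_aux I.card σ m C I hI le_rfl t e,
    fun D hD => str_le C D hD t t rfl⟩
  obtain ⟨B, h1, h2, h3⟩ := net_str C t e (Nat.clog 2 (8 * m)) (Nat.le_pow_clog (by omega) _)
  exact ⟨B, h1, h2, h3.trans (size_le m (C.str t) hm (C.str_pos t))⟩

end Pool.Agent.Results.MP_9a4607_lc.StrahlerNumber
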